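import Mathlib

/-!
# Case I: the algebra

Residue fields of the product ring `ℕ → R`.
-/

set_option autoImplicit false

namespace TFM8

open Finset TensorProduct

universe u v

section field

/-- Elimination: `r`, `r^σ` and `r r^σ` are independent if `r ≠ r^σ` for some `r`. -/
theorem elim_three {S K : Type*} [CommRing S] [Field K] (f g : S →+* K) {s0 : S}
    (hs0 : f s0 ≠ g s0) {α β γ : K} (h : ∀ r, f r * α + g r * β + f r * g r * γ = 0) :
    β = 0 := by
  have h1 : ∀ r s, g r * ((g s - f s) * β + f s * (g s - 1) * (f r * γ)) = 0 := by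
    intro r s
    have e1 := h (s * r)
    have e2 := h r
    rw [map_mul, map_mul] at e1
    linear_combination e1 - f s * e2
  have h2 : ∀ s, (g s - f s) * β + f s * (g s - 1) * γ = 0 := by
    intro s
    have := h1 1 s
    rw [map_one, map_one] at this
    linear_combination this
  have h3 : ∀ r s, (g r * (f r - 1)) * (f s * (g s - 1)) * γ = 0 := by
    intro r s
    linear_combination h1 r s - g r * h2 s
  have hγ : γ = 0 := by
    by_contra hγ
    have h4 : ∀ r s, (g r * (f r - 1)) * (f s * (g s - 1)) = 0 := fun r s =>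
      (mul_eq_zero.1 (h3 r s)).resolve_right hγ
    have aux : ∀ (a b : S →+* K), (∀ s, a s * (b s - 1) = 0) → ∀ s, a s = b s := by
      intro a b hab s
      have e0 := hab s
      have e1 := hab (s + 1)
      have e2 := hab (1 + 1)
      rw [map_add, map_add, map_one, map_one] at e1 e2
      -- `a s = - b s` and `2 = 0`
      have e3 : a s + b s = 0 := by linear_combination e1 - e0
      have e4 : ((1 : K) + 1) = 0 := by linear_combination e2
      linear_combination e3 - b s * e4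
    by_cases h5 : ∀ r, g r * (f r - 1) = 0
    · exact hs0 (aux g f h5 s0).symm
    · push Not at h5
      obtain ⟨r, hr⟩ := h5
      exact hs0 (aux f g (fun s => (mul_eq_zero.1 (h4 r s)).resolve_left hr) s0)
  have h5 := h2 s0
  rw [hγ, mul_zero, add_zero] at h5
  exact (mul_eq_zero.1 h5).resolve_left (sub_ne_zero.2 (Ne.symm hs0))

end field

section functional

variable {S : Type u} [CommRing S] {N : Type v} [AddCommGroup N] [Module S N]

theorem exists_functional [Module.Finite S N] (𝔓 : Ideal S) [𝔓.IsPrime]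
    (h : Module.annihilator S N ≤ 𝔓) : ∃ φ : N →ₗ[S] 𝔓.ResidueField, φ ≠ 0 := by
  have h1 : (⟨𝔓, inferInstance⟩ : PrimeSpectrum S) ∈ Module.support S N :=
    Module.mem_support_iff_of_finite.2 h
  rw [Module.mem_support_iff_nontrivial_residueField_tensorProduct] at h1
  let K := 𝔓.ResidueField
  change Nontrivial (K ⊗[S] N) at h1
  obtain ⟨x, hx⟩ := exists_ne (0 : K ⊗[S] N)
  obtain ⟨f, hf⟩ : ∃ f : Module.Dual K (K ⊗[S] N), f x ≠ 0 := by
    by_contra hcon
    push Not at hcon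
    exact hx ((Module.forall_dual_apply_eq_zero_iff K x).1 hcon)
  let ι : N →ₗ[S] (K ⊗[S] N) := TensorProduct.mk S K N 1
  refine ⟨(f.restrictScalars S).comp ι, fun h0 => hf ?_⟩
  have h2 : ∀ y : K ⊗[S] N, f y = 0 := by
    intro y
    induction y using TensorProduct.induction_on with
    | zero => exact map_zero f
    | tmul a n =>
      have h3 : (a ⊗ₜ[S] n : K ⊗[S] N) = a • (1 ⊗ₜ[S] n : K ⊗[S] N) := by
        rw [TensorProduct.smul_tmul', smul_eq_mul, mul_one]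
      have h4 : f (1 ⊗ₜ[S] n) = 0 := LinearMap.congr_fun h0 n
      rw [h3, map_smul, h4, smul_zero]
    | add y z hy hz => rw [map_add, hy, hz, add_zero]
  exact h2 x

end functional

section product

variable {R V : Type} [CommRing R] [AddCommGroup V] [Module R V]

theorem finite_prod (P : Submodule R V) (hP : P.FG) : Module.Finite (ℕ → R) (ℕ → P) := by
  classical
  obtain ⟨m, f, hf⟩ := Submodule.fg_iff_exists_fin_generating_family.1 hP
  have hfP : ∀ i, f i ∈ P := fun i => hf ▸ Submodule.subset_span ⟨i, rfl⟩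
  refine ⟨⟨univ.image fun i : Fin m => fun _ : ℕ => (⟨f i, hfP i⟩ : P), ?_⟩⟩
  rw [eq_top_iff]
  intro x _
  have h1 : ∀ n, ∃ a : Fin m → R, ∑ i, a i • f i = x n := fun n =>
    (Submodule.mem_span_range_iff_exists_fun R).1 (by rw [hf]; exact (x n).2)
  choose a ha using h1
  have h2 : x = ∑ i : Fin m, (fun n => a n i) • (fun _ : ℕ => (⟨f i, hfP i⟩ : P)) := by
    funext n
    apply Subtype.ext
    rw [Finset.sum_apply, AddSubmonoidClass.coe_finset_sum, ← ha n]
    rfl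
  rw [h2]
  refine Submodule.sum_mem _ fun i _ => Submodule.smul_mem _ _ (Submodule.subset_span ?_)
  rw [coe_image]
  exact ⟨i, mem_coe.2 (mem_univ i), rfl⟩

variable {𝔓 : Ideal (ℕ → R)} [𝔓.IsPrime]

theorem exists_fun (P : Submodule R V) (hP : P.FG) (e : P)
    (h : ∀ c : ℕ → R, (∀ n, ∀ v : P, ∃ r : R, c n • v = r • e) → c ∈ 𝔓) :
    ∃ φ : (ℕ → P) →ₗ[ℕ → R] 𝔓.ResidueField, φ (fun _ => e) = 0 ∧ φ ≠ 0 := by
  have := finite_prod P hP
  let N : Submodule (ℕ → R) (ℕ → P) := Submodule.span (ℕ → R) {fun _ => e}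
  obtain ⟨φ, hφ⟩ := exists_functional (N := (ℕ → P) ⧸ N) 𝔓 (by
    intro c hc
    refine h c fun n v => ?_
    rw [Module.mem_annihilator] at hc
    have h1 := hc (Submodule.Quotient.mk fun _ => v)
    rw [← Submodule.Quotient.mk_smul, Submodule.Quotient.mk_eq_zero] at h1
    obtain ⟨d, hd⟩ := Submodule.mem_span_singleton.1 h1
    exact ⟨d n, (congrFun hd n).symm⟩)
  refine ⟨φ.comp N.mkQ, ?_, fun h0 => hφ ?_⟩
  · show φ (Submodule.Quotient.mk _) = 0
    rw [(Submodule.Quotient.mk_eq_zero N).2 (Submodule.mem_span_singleton_self _), map_zero]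
  · ext x
    exact LinearMap.congr_fun h0 x

theorem smul_kill (P : Submodule R V) (hP : P.FG) (𝔧 : Ideal R)
    (φ : (ℕ → P) →ₗ[ℕ → R] 𝔓.ResidueField)
    (h𝔧 : ∀ c : ℕ → R, (∀ n, c n ∈ 𝔧) → c ∈ 𝔓) (y : ℕ → P) (hy : ∀ n, (y n : V) ∈ 𝔧 • P) :
    φ y = 0 := by
  classical
  obtain ⟨m, f, hf⟩ := Submodule.fg_iff_exists_fin_generating_family.1 hP
  have hfP : ∀ i, f i ∈ P := fun i => hf ▸ Submodule.subset_span ⟨i, rfl⟩
  have h1 : ∀ n, ∃ a : Fin m → R, (∀ i, a i ∈ 𝔧) ∧ ∑ i, a i • f i = y n := by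
    intro n
    have h2 : (y n : V) ∈ 𝔧 • Submodule.span R (Set.range f) := by
      have h3 := hy n
      generalize (y n : V) = z at h3
      rw [hf]
      exact h3
    rw [Submodule.mem_ideal_smul_span_iff_exists_sum] at h2
    obtain ⟨a, ha, hs⟩ := h2
    refine ⟨a, ha, ?_⟩
    rw [← hs, Finsupp.sum_fintype]
    intro i
    rw [zero_smul]
  choose a ha hs using h1
  have h2 : y = ∑ i : Fin m, (fun n => a n i) • (fun _ : ℕ => (⟨f i, hfP i⟩ : P)) := by
    funext n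
    apply Subtype.ext
    rw [Finset.sum_apply, AddSubmonoidClass.coe_finset_sum, ← hs n]
    rfl
  rw [h2, map_sum]
  refine sum_eq_zero fun i _ => ?_
  rw [map_smul, Algebra.smul_def, Ideal.algebraMap_residueField_eq_zero.2 (h𝔧 _ fun n => ha n i),
    zero_mul]

end product

section main

variable {R V G : Type} [CommRing R] [AddCommGroup V] [Module R V] [Group G]
  (act : G →* Module.End ℤ V) (cj : G → R →+* R)
  (hcj : ∀ g (r : R) v, act g (r • v) = cj g r • act g v)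
  (hcj1 : ∀ g r, cj g⁻¹ (cj g r) = r)
  {p : ℕ} [NeZero p] (eps : V →+ ZMod p) (aug : R →+* ZMod p)
  (heps : ∀ (r : R) v, eps (r • v) = aug r * eps v) (heps' : ∀ g v, eps (act g v) = eps v)

/-- conjugation in the product ring -/
def CJ (g : ℕ → G) : (ℕ → R) →+* (ℕ → R) :=
  Pi.ringHom fun n => (cj (g n)).comp (Pi.evalRingHom (fun _ => R) n)

theorem CJ_apply (g : ℕ → G) (r : ℕ → R) (n : ℕ) : CJ cj g r n = cj (g n) (r n) := rfl

include hcj1 in
theorem CJ_inv (g : ℕ → G) (r : ℕ → R) : CJ cj g⁻¹ (CJ cj g r) = r := by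
  funext n
  exact hcj1 (g n) (r n)

/-- the action in the product module -/
def AC (P : Submodule R V) (hG : ∀ g, ∀ v ∈ P, act g v ∈ P) (g : ℕ → G) (x : ℕ → P) : ℕ → P :=
  fun n => ⟨act (g n) (x n), hG (g n) _ (x n).2⟩

section P

variable (P : Submodule R V) (hG : ∀ g, ∀ v ∈ P, act g v ∈ P)

theorem AC_add (g : ℕ → G) (x y : ℕ → P) :
    AC act P hG g (x + y) = AC act P hG g x + AC act P hG g y := by
  funext n
  apply Subtype.ext
  exact map_add (act (g n)) (x n : V) (y n : V)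

include hcj in
theorem AC_smul (g : ℕ → G) (r : ℕ → R) (x : ℕ → P) :
    AC act P hG g (r • x) = CJ cj g r • AC act P hG g x := by
  funext n
  apply Subtype.ext
  exact hcj (g n) (r n) (x n : V)

theorem AC_inv (g : ℕ → G) (x : ℕ → P) : AC act P hG g (AC act P hG g⁻¹ x) = x := by
  funext n
  apply Subtype.ext
  show act (g n) (act (g n)⁻¹ (x n : V)) = x n
  rw [← Module.End.mul_apply, ← map_mul, mul_inv_cancel, map_one]
  rfl

include heps in
/-- the decomposition in a multiple of `e` and an element of augmentation zero -/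
theorem decomp (e : P) (he : eps e = 1) (y : ℕ → P) :
    ∃ (r : ℕ → R) (v : ℕ → P), (∀ n, eps (v n) = 0) ∧ y = r • (fun _ => e) + v := by
  refine ⟨fun n => ((eps (y n)).val : R), y - (fun n => ((eps (y n)).val : R)) • (fun _ => e),
    fun n => ?_, by abel⟩
  show eps ((y n : V) - ((eps (y n)).val : R) • (e : V)) = 0
  rw [map_sub, heps, he, mul_one, map_natCast, ZMod.natCast_zmod_val, sub_self]

variable {𝔓 : Ideal (ℕ → R)} [𝔓.IsPrime] (hP : P.FG) (𝔧 : Ideal R)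
  (h𝔧 : ∀ c : ℕ → R, (∀ n, c n ∈ 𝔧) → c ∈ 𝔓)

include hP h𝔧 in
/-- if `g x` is congruent to a multiple of `x` then `φ (g x)` is that multiple of `φ x` -/
theorem parallel (g : ℕ → G)
    (h0 : ∀ n, ∀ x ∈ P, eps x = 1 → ∃ r : R, act (g n) x - r • x ∈ 𝔧 • P)
    (x : ℕ → P) (hx : ∀ n, eps (x n) = 1) :
    ∃ ρ : 𝔓.ResidueField, ∀ φ : (ℕ → P) →ₗ[ℕ → R] 𝔓.ResidueField,
      φ (AC act P hG g x) = ρ * φ x := by
  choose r hr using fun n => h0 n (x n) (x n).2 (hx n)
  refine ⟨algebraMap _ _ r, fun φ => ?_⟩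
  have h1 := smul_kill P hP 𝔧 φ h𝔧 (AC act P hG g x - r • x) hr
  rw [map_sub, map_smul, sub_eq_zero, Algebra.smul_def] at h1
  exact h1

include hcj heps hG hP h𝔧 in
theorem wedge (u : G) (h1 : ∀ x ∈ P, eps x = 1 → ∃ r : R, act u x - r • x ∈ 𝔧 • P)
    (s0 : ℕ → R) (hs0 : CJ cj (fun _ => u) s0 - s0 ∉ 𝔓)
    (heps' : ∀ g v, eps (act g v) = eps v)
    (φ ψ : (ℕ → P) →ₗ[ℕ → R] 𝔓.ResidueField) (v x : ℕ → P) (hv : ∀ n, eps (v n) = 0)
    (hx : ∀ n, eps (x n) = 1) : φ v * ψ x = φ x * ψ v := by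
  let g : ℕ → G := fun _ => u
  let v1 : ℕ → P := AC act P hG g⁻¹ v
  have hv1 : ∀ n, eps (v1 n) = 0 := fun n => (heps' _ _).trans (hv n)
  have hA : AC act P hG g v1 = v := AC_inv act P hG g v
  have key : ∀ r : ℕ → R, (φ (AC act P hG g x) + algebraMap _ 𝔓.ResidueField (CJ cj g r) * φ v) *
      (ψ x + algebraMap _ 𝔓.ResidueField r * ψ v1) =
      (φ x + algebraMap _ 𝔓.ResidueField r * φ v1) *
        (ψ (AC act P hG g x) + algebraMap _ 𝔓.ResidueField (CJ cj g r) * ψ v) := by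
    intro r
    obtain ⟨ρ, hρ⟩ := parallel act eps P hG hP 𝔧 h𝔧 g (fun _ => h1) (x + r • v1) (fun n => by
      show eps ((x n : V) + r n • (v1 n : V)) = 1
      rw [map_add, heps, hx, hv1, mul_zero, add_zero])
    have e1 : ∀ χ : (ℕ → P) →ₗ[ℕ → R] 𝔓.ResidueField, χ (AC act P hG g (x + r • v1)) =
        χ (AC act P hG g x) + algebraMap _ 𝔓.ResidueField (CJ cj g r) * χ v := by
      intro χ
      rw [AC_add, AC_smul act cj hcj, map_add, map_smul, Algebra.smul_def, hA]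
    have e2 : ∀ χ : (ℕ → P) →ₗ[ℕ → R] 𝔓.ResidueField, χ (x + r • v1) =
        χ x + algebraMap _ 𝔓.ResidueField r * χ v1 := by
      intro χ
      rw [map_add, map_smul, Algebra.smul_def]
    rw [← e1 φ, ← e1 ψ, ← e2 φ, ← e2 ψ, hρ φ, hρ ψ]
    ring
  have key0 := key 0
  rw [map_zero, map_zero, zero_mul, zero_mul, zero_mul, zero_mul, add_zero, add_zero, add_zero,
    add_zero] at key0
  have h2 : φ v * ψ x - φ x * ψ v = 0 := by
    refine elim_three (algebraMap (ℕ → R) 𝔓.ResidueField)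
      ((algebraMap (ℕ → R) 𝔓.ResidueField).comp (CJ cj g)) (s0 := s0) ?_
      (α := φ (AC act P hG g x) * ψ v1 - φ v1 * ψ (AC act P hG g x))
      (γ := φ v * ψ v1 - φ v1 * ψ v) ?_
    · intro h3
      apply hs0
      rw [← Ideal.algebraMap_residueField_eq_zero, map_sub, h3]
      exact sub_self _
    · intro r
      rw [RingHom.comp_apply]
      linear_combination key r - key0
  exact sub_eq_zero.1 h2

end P

include hcj hcj1 heps heps' in
/-- **Case I.** -/
theorem case_one (P0 P1 : Submodule R V) (hP0 : P0.FG) (hP1 : P1.FG) (h10 : P1 ≤ P0)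
    (e : V) (he : e ∈ P1) (hee : eps e = 1)
    (hG0 : ∀ g, ∀ v ∈ P0, act g v ∈ P0) (hG1 : ∀ g, ∀ v ∈ P1, act g v ∈ P1)
    (𝔧0 𝔧1 : Ideal R) (q0 q1 : ℕ) (hj0 : ∀ j ∈ 𝔧0, ∀ v ∈ P0, j ^ q0 • v = 0)
    (hj1 : ∀ j ∈ 𝔧1, ∀ v ∈ P1, j ^ q1 • v = 0)
    (h0 : ∀ g, ∀ x ∈ P0, eps x = 1 → ∃ r : R, act g x - r • x ∈ 𝔧0 • P0)
    (u : G) (h1 : ∀ x ∈ P1, eps x = 1 → ∃ r : R, act u x - r • x ∈ 𝔧1 • P1)
    (hc : ∀ n : ℕ, ∃ r : R, ∃ v ∈ P1, ∀ t : R, (cj u r - r) ^ n • v ≠ t • e)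
    (htr : ∀ x ∈ P1, eps x = 1 → ∃ g, act g e = x) : False := by
  classical
  choose rr vv hvv hrr using hc
  -- the prime ideal
  let 𝔠 : Ideal (ℕ → R) :=
    { carrier := {c | ∀ n, ∀ v ∈ P1, ∃ t : R, c n • v = t • e}
      add_mem' := by
        intro a b ha hb n v hv
        obtain ⟨t, ht⟩ := ha n v hv
        obtain ⟨t', ht'⟩ := hb n v hv
        exact ⟨t + t', by rw [Pi.add_apply, add_smul, add_smul, ht, ht']⟩
      zero_mem' := fun n v _ => ⟨0, by rw [Pi.zero_apply, zero_smul, zero_smul]⟩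
      smul_mem' := by
        intro a b hb n v hv
        obtain ⟨t, ht⟩ := hb n v hv
        exact ⟨a n * t, by rw [smul_eq_mul, Pi.mul_apply, mul_smul, mul_smul, ht]⟩ }
  let b : ℕ → R := CJ cj (fun _ => u) rr - rr
  have hb : ∀ m : ℕ, b ^ m ∉ 𝔠 := by
    intro m hm
    obtain ⟨t, ht⟩ := hm m (vv m) (hvv m)
    exact hrr m t ht
  obtain ⟨𝔓, h𝔓, hle, hdis⟩ := Ideal.exists_le_prime_disjoint 𝔠 (Submonoid.powers b) (by
    rw [Set.disjoint_left]
    rintro x hx ⟨m, rfl⟩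
    exact hb m hx)
  have hb𝔓 : b ∉ 𝔓 := fun h => Set.disjoint_left.1 hdis h ⟨1, pow_one b⟩
  let K := 𝔓.ResidueField
  have hk1 : ∀ c : ℕ → R, (∀ n, c n ∈ 𝔧1) → c ∈ 𝔓 := by
    intro c hc
    refine h𝔓.mem_of_pow_mem q1 (hle fun n v hv => ⟨0, ?_⟩)
    rw [Pi.pow_apply, hj1 _ (hc n) v hv, zero_smul]
  have hk0 : ∀ c : ℕ → R, (∀ n, c n ∈ 𝔧0) → c ∈ 𝔓 := by
    intro c hc
    refine h𝔓.mem_of_pow_mem q0 (hle fun n v hv => ⟨0, ?_⟩)
    rw [Pi.pow_apply, hj0 _ (hc n) v (h10 hv), zero_smul]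
  -- functionals
  obtain ⟨φ0, hφ0e, hφ0⟩ := exists_fun (𝔓 := 𝔓) P0 hP0 ⟨e, h10 he⟩ (by
    intro c hc
    refine hle fun n v hv => ?_
    obtain ⟨r, hr⟩ := hc n ⟨v, h10 hv⟩
    exact ⟨r, congrArg Subtype.val hr⟩)
  obtain ⟨φ1, hφ1e, hφ1⟩ := exists_fun (𝔓 := 𝔓) P1 hP1 ⟨e, he⟩ (by
    intro c hc
    refine hle fun n v hv => ?_
    obtain ⟨r, hr⟩ := hc n ⟨v, hv⟩
    exact ⟨r, congrArg Subtype.val hr⟩)
  -- a nonzero functional which is zero at `e` is nonzero somewhere on the vectors of augmentation 0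
  have hex : ∀ (P : Submodule R V) (heP : e ∈ P) (φ : (ℕ → P) →ₗ[ℕ → R] K),
      φ (fun _ => ⟨e, heP⟩) = 0 → φ ≠ 0 → ∃ v : ℕ → P, (∀ n, eps (v n) = 0) ∧ φ v ≠ 0 := by
    intro P heP φ hφe hφ
    by_contra hcon
    push Not at hcon
    apply hφ
    ext y
    obtain ⟨r, v, hv, rfl⟩ := decomp eps aug heps P ⟨e, heP⟩ hee y
    rw [map_add, map_smul, hφe, smul_zero, hcon v hv, add_zero]
    rfl
  obtain ⟨v0, hv0, hφv0⟩ := hex P0 (h10 he) φ0 hφ0e hφ0
  obtain ⟨v1, hv1, hφv1⟩ := hex P1 he φ1 hφ1e hφ1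
  -- every functional on the product of `P1` is zero at `e`
  have hall : ∀ ψ : (ℕ → P1) →ₗ[ℕ → R] K, ψ (fun _ => ⟨e, he⟩) = 0 := by
    intro ψ
    have h2 := wedge act cj hcj eps aug heps P1 hG1 hP1 𝔧1 hk1 u h1 rr hb𝔓 heps' φ1 ψ v1
      (fun _ => ⟨e, he⟩) hv1 (fun _ => hee)
    rw [hφ1e, zero_mul] at h2
    exact (mul_eq_zero.1 h2).resolve_left hφv1
  -- the prime is invariant
  have hinv : ∀ g : ℕ → G, ∀ r ∈ 𝔓, CJ cj g r ∈ 𝔓 := by
    intro g r hr
    let w : ℕ → P0 := AC act P0 hG0 g⁻¹ v0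
    have hw : ∀ n, eps (w n) = 0 := fun n => (heps' _ _).trans (hv0 n)
    obtain ⟨ρ, hρ⟩ := parallel act eps P0 hG0 hP0 𝔧0 hk0 g (fun n => h0 (g n))
      ((fun _ => ⟨e, h10 he⟩) + r • w) (fun n => by
        show eps ((e : V) + r n • (w n : V)) = 1
        rw [map_add, heps, hee, hw, mul_zero, add_zero])
    obtain ⟨ρ', hρ'⟩ := parallel act eps P0 hG0 hP0 𝔧0 hk0 g (fun n => h0 (g n))
      (fun _ => ⟨e, h10 he⟩) (fun n => hee)
    have h2 := hρ φ0
    have h3 := hρ' φ0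
    rw [hφ0e, mul_zero] at h3
    rw [AC_add, AC_smul act cj hcj, map_add, map_add, h3, zero_add, hφ0e, zero_add, map_smul,
      map_smul, Algebra.smul_def, Algebra.smul_def, Ideal.algebraMap_residueField_eq_zero.2 hr,
      zero_mul, mul_zero, AC_inv act P0 hG0 g v0] at h2
    exact Ideal.algebraMap_residueField_eq_zero.1 ((mul_eq_zero.1 h2).resolve_right hφv0)
  -- the functional `φ1` is zero at all points of augmentation 1
  have hfin : ∀ x : ℕ → P1, (∀ n, eps (x n) = 1) → φ1 x = 0 := by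
    intro x hx
    choose g hg using fun n => htr (x n) (x n).2 (hx n)
    have hgx : AC act P1 hG1 g (fun _ => ⟨e, he⟩) = x := by
      funext n
      exact Subtype.ext (hg n)
    have hcomap : 𝔓 = 𝔓.comap (CJ cj g⁻¹) := by
      apply le_antisymm
      · intro r hr
        exact hinv g⁻¹ r hr
      · intro r hr
        have h2 := hinv g _ (show CJ cj g⁻¹ r ∈ 𝔓 from hr)
        have h3 : CJ cj g (CJ cj g⁻¹ r) = r := by
          have := CJ_inv cj hcj1 g⁻¹ r
          rwa [inv_inv] at this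
        rwa [h3] at h2
    let θ : K →+* K := Ideal.ResidueField.map 𝔓 𝔓 (CJ cj g⁻¹) hcomap
    have hθ : ∀ r : ℕ → R, θ (algebraMap _ _ r) = algebraMap _ _ (CJ cj g⁻¹ r) := fun r =>
      Ideal.ResidueField.map_algebraMap 𝔓 𝔓 (CJ cj g⁻¹) hcomap r
    let χ : (ℕ → P1) →ₗ[ℕ → R] K :=
      { toFun := fun y => θ (φ1 (AC act P1 hG1 g y))
        map_add' := fun y z => by rw [AC_add, map_add, map_add]
        map_smul' := fun r y => by
          rw [AC_smul act cj hcj, map_smul, Algebra.smul_def, map_mul, hθ, CJ_inv cj hcj1,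
            RingHom.id_apply, Algebra.smul_def] }
    have h2 := hall χ
    have h3 : θ (φ1 x) = 0 := by
      rw [← hgx]
      exact h2
    exact (map_eq_zero θ).1 h3
  apply hφv1
  have h2 := hfin ((fun _ => ⟨e, he⟩) + v1) (fun n => by
    show eps ((e : V) + (v1 n : V)) = 1
    rw [map_add, hee, hv1, add_zero])
  rwa [map_add, hφ1e, zero_add] at h2

end main

end TFM8
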