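import Mathlib

/-!
# Elimination of multiplicative characters
-/

set_option autoImplicit false

namespace TFM8

open Finset

variable {R : Type*} [CommRing R] {A : Type*} [AddCommGroup A] [Module R A]
  {κ : Type*} [Fintype κ] [DecidableEq κ]

theorem elim_aux (χ : κ → R →+* R) (𝔣 : Ideal R) (X : κ → A)
    (h : ∀ f ∈ 𝔣, ∑ k, χ k f • X k = 0) (T : Finset κ) : ∀ (s : κ → R), ∀ f ∈ 𝔣,
      ∑ k, ((∏ k' ∈ T, (χ k (s k') - χ k' (s k'))) * χ k f) • X k = 0 := by
  induction T using Finset.induction_on with
  | empty =>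
    intro s f hf
    simpa using h f hf
  | insert a T ha ih =>
    intro s f hf
    have h1 := ih s (s a * f) (𝔣.mul_mem_left _ hf)
    have h2 := ih s f hf
    have h3 : ∑ k, ((∏ k' ∈ insert a T, (χ k (s k') - χ k' (s k'))) * χ k f) • X k =
        ∑ k, ((∏ k' ∈ T, (χ k (s k') - χ k' (s k'))) * χ k (s a * f)) • X k -
          χ a (s a) • ∑ k, ((∏ k' ∈ T, (χ k (s k') - χ k' (s k'))) * χ k f) • X k := by
      rw [smul_sum, ← sum_sub_distrib]
      refine sum_congr rfl fun k _ => ?_
      rw [prod_insert ha, map_mul, smul_smul, ← sub_smul]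
      congr 1
      ring
    rw [h3, h1, h2, smul_zero, sub_zero]

/-- Elimination in one variable. -/
theorem elim_one (χ : κ → R →+* R) (𝔭 𝔣 : Ideal R)
    (h𝔭 : ∀ k k', k ≠ k' → 𝔭 ≤ Ideal.span (Set.range fun s => χ k s - χ k' s))
    (h𝔣 : ∀ k, ∀ f ∈ 𝔣, ∃ f' ∈ 𝔣, χ k f' = f) (X : κ → A)
    (h : ∀ f ∈ 𝔣, ∑ k, χ k f • X k = 0) (k0 : κ) :
    ∀ c ∈ 𝔭 ^ (Fintype.card κ) * 𝔣, c • X k0 = 0 := by
  classical
  let K : Ideal R := (Submodule.span R {X k0}).annihilator
  have hK : ∀ x : R, x ∈ K ↔ x • X k0 = 0 := fun x =>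
    Submodule.mem_annihilator_span_singleton _ _
  have key : ∀ (s : κ → R), ∀ f ∈ 𝔣,
      (∏ k' ∈ univ.erase k0, (χ k0 (s k') - χ k' (s k'))) * f ∈ K := by
    intro s f hf
    obtain ⟨f', hf', rfl⟩ := h𝔣 k0 f hf
    have h1 := elim_aux χ 𝔣 X h (univ.erase k0) s f' hf'
    rw [← add_sum_erase univ _ (mem_univ k0)] at h1
    rw [hK]
    have h2 : ∑ k ∈ univ.erase k0,
        ((∏ k' ∈ univ.erase k0, (χ k (s k') - χ k' (s k'))) * χ k f') • X k = 0 := by
      refine sum_eq_zero fun k hk => ?_
      rw [prod_eq_zero hk (sub_self _), zero_mul, zero_smul]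
    rwa [h2, add_zero] at h1
  have key2 : ∀ f ∈ 𝔣, ∀ y ∈ ∏ k' ∈ univ.erase k0,
      Ideal.span (Set.range fun s => χ k0 s - χ k' s), y * f ∈ K := by
    intro f hf y hy
    rw [Ideal.prod_span] at hy
    induction hy using Submodule.span_induction with
    | mem x hx =>
      obtain ⟨g, hg, rfl⟩ := Set.mem_finset_prod _ _ _ |>.1 hx
      have hg' : ∀ k', ∃ s, k' ∈ univ.erase k0 → χ k0 s - χ k' s = g k' := by
        intro k'
        by_cases hk : k' ∈ univ.erase k0
        · obtain ⟨s, hs⟩ := hg hk
          exact ⟨s, fun _ => hs⟩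
        · exact ⟨0, fun h => absurd h hk⟩
      choose s hs using hg'
      have := key s f hf
      rwa [prod_congr rfl fun k' hk' => hs k' hk'] at this
    | zero => rw [zero_mul]; exact K.zero_mem
    | add x y _ _ hx hy => rw [add_mul]; exact K.add_mem hx hy
    | smul a x _ hx => rw [smul_eq_mul, mul_assoc]; exact K.mul_mem_left a hx
  have hle : 𝔭 ^ (Fintype.card κ) ≤ ∏ k' ∈ univ.erase k0,
      Ideal.span (Set.range fun s => χ k0 s - χ k' s) := by
    have h1 : ∀ T : Finset κ, k0 ∉ T → 𝔭 ^ T.card ≤ ∏ k' ∈ T,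
        Ideal.span (Set.range fun s => χ k0 s - χ k' s) := by
      intro T
      induction T using Finset.induction_on with
      | empty => intro _; simp
      | insert a T ha ih =>
        intro h0
        rw [card_insert_of_notMem ha, pow_succ', prod_insert ha]
        refine Ideal.mul_mono (h𝔭 k0 a ?_) (ih fun h => h0 (mem_insert_of_mem h))
        rintro rfl
        exact h0 (mem_insert_self _ _)
    refine le_trans (Ideal.pow_le_pow_right ?_) (h1 (univ.erase k0) (notMem_erase k0 _))
    exact (card_erase_le).trans (le_of_eq card_univ)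
  intro c hc
  rw [← hK]
  exact (Ideal.mul_le.2 fun y hy f hf => key2 f hf y (hle hy)) hc

/-- Elimination in several variables. -/
theorem elim {ι : Type*} [Fintype ι] [DecidableEq ι] (χ : κ → R →+* R) (𝔭 𝔣 : Ideal R)
    (h𝔭 : ∀ k k', k ≠ k' → 𝔭 ≤ Ideal.span (Set.range fun s => χ k s - χ k' s))
    (h𝔣 : ∀ k, ∀ f ∈ 𝔣, ∃ f' ∈ 𝔣, χ k f' = f) (C : (ι → κ) → A)
    (h : ∀ f : ι → R, (∀ i, f i ∈ 𝔣) → ∑ γ : ι → κ, (∏ j, χ (γ j) (f j)) • C γ = 0)
    (γ0 : ι → κ) :
    ∀ b ∈ (𝔭 ^ (Fintype.card κ) * 𝔣) ^ (Fintype.card ι), b • C γ0 = 0 := by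
  classical
  have main : ∀ s : Finset ι, ∀ b ∈ (𝔭 ^ (Fintype.card κ) * 𝔣) ^ s.card, ∀ f : ι → R,
      (∀ i, f i ∈ 𝔣) → b • ∑ γ ∈ univ.filter (fun γ : ι → κ => ∀ i ∈ s, γ i = γ0 i),
        (∏ j ∈ univ \ s, χ (γ j) (f j)) • C γ = 0 := by
    intro s
    induction s using Finset.induction_on with
    | empty =>
      intro b _ f hf
      have h1 := h f hf
      simp only [notMem_empty, false_implies, implies_true, filter_true, sdiff_empty]
      rw [h1, smul_zero]
    | insert a s ha ih =>
      intro b hb f hf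
      rw [card_insert_of_notMem ha, pow_succ'] at hb
      induction hb using Submodule.mul_induction_on' with
      | mem_mul_mem c hc b hb =>
        -- the part of the sum with the value `k` at `a`
        let X : κ → A := fun k => b • ∑ γ ∈ univ.filter
          (fun γ : ι → κ => (∀ i ∈ s, γ i = γ0 i) ∧ γ a = k),
          (∏ j ∈ univ \ insert a s, χ (γ j) (f j)) • C γ
        have hX : ∀ g ∈ 𝔣, ∑ k, χ k g • X k = 0 := by
          intro g hg
          have h1 := ih b hb (Function.update f a g) (fun i => by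
            by_cases hi : i = a
            · subst hi
              rwa [Function.update_self]
            · rw [Function.update_of_ne hi]
              exact hf i)
          rw [← h1]
          have h2 : ∀ γ : ι → κ, ∏ j ∈ univ \ s, χ (γ j) (Function.update f a g j) =
              χ (γ a) g * ∏ j ∈ univ \ insert a s, χ (γ j) (f j) := by
            intro γ
            have h3 : univ \ s = insert a (univ \ insert a s) := by
              ext j
              simp only [mem_sdiff, mem_univ, true_and, mem_insert, not_or]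
              by_cases hj : j = a
              · subst hj; simp [ha]
              · simp [hj]
            rw [h3, prod_insert (by simp), Function.update_self]
            congr 1
            refine prod_congr rfl fun j hj => ?_
            rw [Function.update_of_ne]
            rintro rfl
            simp at hj
          rw [← sum_fiberwise_of_maps_to (s := univ.filter fun γ : ι → κ => ∀ i ∈ s, γ i = γ0 i)
            (t := univ) (g := fun γ => γ a) (fun _ _ => mem_univ _), smul_sum]
          refine sum_congr rfl fun k _ => ?_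
          show χ k g • (b • _) = _
          rw [smul_comm, filter_filter, smul_sum]
          congr 1
          refine sum_congr rfl fun γ hγ => ?_
          rw [h2 γ, mul_smul, (mem_filter.1 hγ).2.2]
        have h4 := elim_one χ 𝔭 𝔣 h𝔭 h𝔣 X hX (γ0 a) c hc
        have h5 : (univ.filter fun γ : ι → κ => ∀ i ∈ insert a s, γ i = γ0 i) =
            univ.filter (fun γ : ι → κ => (∀ i ∈ s, γ i = γ0 i) ∧ γ a = γ0 a) := by
          ext γ
          simp only [mem_filter, mem_univ, true_and, forall_mem_insert]
          exact and_comm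
        rw [h5, mul_smul]
        exact h4
      | add x hx y hy ihx ihy =>
        rw [add_smul, ihx, ihy, add_zero]
  intro b hb
  have h1 := main univ b hb (fun _ => 0) (fun _ => 𝔣.zero_mem)
  have h2 : (univ.filter fun γ : ι → κ => ∀ i ∈ univ, γ i = γ0 i) = {γ0} := by
    ext γ
    simp only [mem_filter, mem_univ, true_and, forall_true_left, mem_singleton]
    exact ⟨fun h => funext h, fun h i => by rw [h]⟩
  rw [h2, sum_singleton, sdiff_self, bot_eq_empty, prod_empty, one_smul] at h1
  exact h1

end TFM8
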