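import Pool.Agent.TFM8.Pol
import Pool.Agent.TFM8.Elim

/-!
# Case II: the algebra

`P` is an `R`-module with additive maps `U k` (`k : κ`, powers of one operator), semilinear for ring
endomorphisms `χ k`; `π : P → M` is the projection to a finitely generated quotient on which the
`p`-th powers of the elements of the ideal `𝔣` are zero, and `E1` is a subset of `P` closed under
adding elements of `𝔣 P`, whose images under all `π ∘ U k` lie in `𝔣 M`. If on `E1` the vector
`π (U k0 x)` is always a combination of the other `π (U k x)`, then a power of `𝔭 𝔣` kills `M`, for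
each ideal `𝔭` contained in all ideals generated by the differences `χ k s - χ k' s`.
-/

set_option autoImplicit false

namespace TFM8

open Finset

universe u v

variable {R : Type u} [CommRing R] {P : Type*} [AddCommGroup P] [Module R P]
  {M : Type v} [AddCommGroup M] [Module R M] {A : Type*} [AddCommGroup A] [Module R A]
  {κ : Type} [Fintype κ] [DecidableEq κ]

/-- the slots: `p - 1` for each `k ≠ k0`, and one for `k0` -/
abbrev Slot (p : ℕ) (k0 : κ) : Type := ({k : κ // k ≠ k0} × Fin (p - 1)) ⊕ Unit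

/-- the index of a slot -/
def slot (p : ℕ) (k0 : κ) : Slot p k0 → κ := Sum.elim (fun x => x.1.1) (fun _ => k0)

/-- the slots of index `k`, together with the slot of `k0` -/
def slots (p : ℕ) (k0 : κ) (k : {k : κ // k ≠ k0}) : Finset (Slot p k0) :=
  insert (Sum.inr ()) ((univ : Finset (Fin (p - 1))).image fun j => Sum.inl (k, j))

theorem card_slots {p : ℕ} (hp : p.Prime) (k0 : κ) (k : {k : κ // k ≠ k0}) :
    (slots p k0 k).card = p := by
  unfold slots
  rw [card_insert_of_notMem, card_image_of_injective, card_univ, Fintype.card_fin]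
  · have := hp.pos
    omega
  · intro i j h
    exact (Prod.mk.inj (Sum.inl.inj h)).2
  · intro h
    obtain ⟨j, -, hj⟩ := mem_image.1 h
    exact absurd hj (by simp)

theorem card_fiber_lt {p : ℕ} (hp : p.Prime) (k0 k : κ) :
    Fintype.card {a : Slot p k0 // slot p k0 a = k} < p := by
  have h2 := hp.two_le
  by_cases hk : k = k0
  · have h1 : Fintype.card {a : Slot p k0 // slot p k0 a = k} ≤ Fintype.card Unit := by
      refine Fintype.card_le_of_injective (fun _ => ()) ?_
      rintro ⟨a, ha⟩ ⟨b, hb⟩ _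
      apply Subtype.ext
      rcases a with a | a
      · exact absurd (ha.trans hk) a.1.2
      · rcases b with b | b
        · exact absurd (hb.trans hk) b.1.2
        · rfl
    rw [Fintype.card_unit] at h1
    omega
  · have h1 : Fintype.card {a : Slot p k0 // slot p k0 a = k} ≤ Fintype.card (Fin (p - 1)) := by
      refine Fintype.card_le_of_injective (fun a => match a with
        | ⟨Sum.inl x, _⟩ => x.2
        | ⟨Sum.inr _, h⟩ => absurd h.symm hk) ?_
      rintro ⟨a, ha⟩ ⟨b, hb⟩ hab
      apply Subtype.ext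
      rcases a with a | a
      · rcases b with b | b
        · have h3 : a.1 = b.1 := Subtype.ext (ha.trans hb.symm)
          have h4 : a.2 = b.2 := hab
          show (Sum.inl a : Slot p k0) = Sum.inl b
          rw [Prod.ext h3 h4]
        · exact absurd hb.symm hk
      · exact absurd ha.symm hk
    rw [Fintype.card_fin] at h1
    omega

/-- The number of permutations of the slots which preserve the index is prime to `p`. -/
theorem not_dvd_stab {p : ℕ} (hp : p.Prime) (k0 : κ) :
    ¬ p ∣ Fintype.card {τ : Equiv.Perm (Slot p k0) // slot p k0 ∘ τ = slot p k0} := by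
  rw [DomMulAct.stabilizer_card, Prime.dvd_finset_prod_iff hp.prime]
  rintro ⟨k, -, hk⟩
  exact absurd (hp.dvd_factorial.1 hk) (not_le.2 (card_fiber_lt hp k0 k))

section main

variable {p : ℕ} (hpp : p.Prime) (hp : (p : R) = 0) (π : P →ₗ[R] M) (hπ : Function.Surjective π)
  (U : κ → P →+ P) (hU : ∀ k, Function.Surjective (U k)) (χ : κ → R →+* R)
  (hχ : ∀ k r v, U k (r • v) = χ k r • U k v) (k0 : κ) (𝔭 𝔣 : Ideal R)
  (h𝔭 : ∀ k k', k ≠ k' → 𝔭 ≤ Ideal.span (Set.range fun s => χ k s - χ k' s))
  (h𝔣 : ∀ k, ∀ f ∈ 𝔣, ∃ f' ∈ 𝔣, χ k f' = f)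
  (hfp : ∀ f ∈ 𝔣, ∀ m : M, f ^ p • m = 0)
  (E1 : Set P) (x0 : P) (hx0 : x0 ∈ E1) (hE : ∀ x ∈ E1, ∀ f ∈ 𝔣, ∀ v : P, x + f • v ∈ E1)
  (hP1 : ∀ x ∈ E1, ∀ k, π (U k x) ∈ 𝔣 • (⊤ : Submodule R M))
  (hrel : ∀ x ∈ E1, π (U k0 x) ∈ Submodule.span R (Set.range fun k : {k : κ // k ≠ k0} =>
    π (U k x)))

include hpp hp hfp hP1 hrel in
theorem diag_zero (B : MultilinearMap R (fun _ : Slot p k0 => M) A) (hB : Symm B)
    (x : P) (hx : x ∈ E1) : B (fun i => π (U (slot p k0 i) x)) = 0 := by
  classical
  obtain ⟨r, hr⟩ := (Submodule.mem_span_range_iff_exists_fun R).1 (hrel x hx)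
  set w : Slot p k0 → M := fun i => π (U (slot p k0 i) x) with hw
  have h1 : w = Function.update w (Sum.inr ()) (∑ k, r k • π (U k x)) := by
    rw [eq_comm, Function.update_eq_self_iff, hr]
    rfl
  rw [h1, B.map_update_sum]
  refine sum_eq_zero fun k _ => ?_
  rw [B.map_update_smul]
  have h2 : Function.update w (Sum.inr ()) (π (U k x)) =
      (slots p k0 k).piecewise (fun _ => π (U k x)) w := by
    funext i
    by_cases hi : i ∈ slots p k0 k
    · rw [piecewise_eq_of_mem _ _ _ hi]
      rcases mem_insert.1 hi with rfl | hi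
      · rw [Function.update_self]
      · obtain ⟨j, -, rfl⟩ := mem_image.1 hi
        rw [Function.update_of_ne (by simp)]
        rfl
    · rw [piecewise_eq_of_notMem _ _ _ hi, Function.update_of_ne]
      rintro rfl
      exact hi (mem_insert_self _ _)
  rw [h2, vanish hpp hp B hB _ (card_slots hpp k0 k) 𝔣 hfp w _ (hP1 x hx k), smul_zero]

include hpp hp hχ h𝔭 h𝔣 hfp hE hP1 hrel hx0 in
theorem form_killed (B : MultilinearMap R (fun _ : Slot p k0 => M) A) (hB : Symm B)
    (v : Slot p k0 → P) :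
    ∀ b ∈ (𝔭 ^ (Fintype.card κ) * 𝔣) ^ (Fintype.card (Slot p k0)),
      b • B (fun i => π (U (slot p k0 i) (v i))) = 0 := by
  classical
  let Z : MultilinearMap ℤ (fun _ : Slot p k0 => P) A :=
    (B.restrictScalars ℤ).compLinearMap fun i =>
      ((π.toAddMonoidHom.comp (U (slot p k0 i))).toIntLinearMap)
  have hZ : ∀ z : Slot p k0 → P, Z z = B (fun i => π (U (slot p k0 i) (z i))) := fun z => rfl
  have hsum : ∀ (f : Slot p k0 → R), (∀ i, f i ∈ 𝔣) → ∀ s : Finset (Slot p k0),
      x0 + ∑ i ∈ s, f i • v i ∈ E1 := by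
    intro f hf s
    induction s using Finset.induction_on with
    | empty => simpa using hx0
    | insert a s ha ih =>
      rw [sum_insert ha, add_comm (f a • v a), ← add_assoc]
      exact hE _ ih _ (hf a) _
  -- polarisation
  have hpol : ∀ f : Slot p k0 → R, (∀ i, f i ∈ 𝔣) →
      ∑ τ : Equiv.Perm (Slot p k0), (∏ j, χ (slot p k0 (τ.symm j)) (f j)) •
        B (fun j => π (U (slot p k0 (τ.symm j)) (v j))) = 0 := by
    intro f hf
    have h1 := polar Z x0 (fun i => f i • v i) fun s => by
      rw [hZ]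
      exact diag_zero hpp hp π U k0 𝔣 hfp E1 hP1 hrel B hB _ (hsum f hf s)
    rw [← h1]
    refine sum_congr rfl fun τ _ => ?_
    rw [hZ]
    have h2 : (fun i => π (U (slot p k0 i) (f (τ i) • v (τ i)))) =
        fun i => χ (slot p k0 i) (f (τ i)) • π (U (slot p k0 i) (v (τ i))) := by
      funext i
      rw [hχ, map_smul]
    rw [h2, B.map_smul_univ]
    congr 1
    · rw [← Equiv.prod_comp τ]
      exact prod_congr rfl fun i _ => by rw [Equiv.symm_apply_apply]
    · rw [← hB τ (fun j => π (U (slot p k0 (τ.symm j)) (v j)))]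
      congr 1
      funext i
      simp only [Function.comp_apply, Equiv.symm_apply_apply]
  -- group the permutations by the function `slot ∘ τ⁻¹`
  let C : (Slot p k0 → κ) → A := fun γ =>
    (univ.filter fun τ : Equiv.Perm (Slot p k0) => slot p k0 ∘ τ.symm = γ).card •
      B (fun j => π (U (γ j) (v j)))
  have hC : ∀ f : Slot p k0 → R, (∀ i, f i ∈ 𝔣) →
      ∑ γ : Slot p k0 → κ, (∏ j, χ (γ j) (f j)) • C γ = 0 := by
    intro f hf
    rw [← hpol f hf, ← sum_fiberwise_of_maps_to (s := univ) (t := univ)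
      (g := fun τ : Equiv.Perm (Slot p k0) => slot p k0 ∘ τ.symm) (fun _ _ => mem_univ _)]
    refine sum_congr rfl fun γ _ => ?_
    show (∏ j, χ (γ j) (f j)) • (_ • B (fun j => π (U (γ j) (v j)))) = _
    rw [sum_congr rfl (g := fun _ => (∏ j, χ (γ j) (f j)) • B (fun j => π (U (γ j) (v j)))),
      sum_const, smul_comm]
    intro τ hτ
    have h3 := (mem_filter.1 hτ).2
    subst h3
    rfl
  intro b hb
  have h4 := elim χ 𝔭 𝔣 h𝔭 h𝔣 C hC (slot p k0) b hb
  -- the number of permutations is prime to `p`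
  have h5 : ¬ p ∣ (univ.filter fun τ : Equiv.Perm (Slot p k0) =>
      slot p k0 ∘ τ.symm = slot p k0).card := by
    have h6 : (univ.filter fun τ : Equiv.Perm (Slot p k0) =>
        slot p k0 ∘ τ.symm = slot p k0).card =
        Fintype.card {τ : Equiv.Perm (Slot p k0) // slot p k0 ∘ τ = slot p k0} := by
      rw [← Fintype.card_subtype]
      refine Fintype.card_congr
        { toFun := fun τ => ⟨τ.1.symm, τ.2⟩
          invFun := fun τ => ⟨τ.1.symm, τ.2⟩
          left_inv := fun _ => rfl
          right_inv := fun _ => rfl }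
    rw [h6]
    exact not_dvd_stab hpp k0
  set n := (univ.filter fun τ : Equiv.Perm (Slot p k0) =>
      slot p k0 ∘ τ.symm = slot p k0).card with hn
  have h7 : n • (b • B (fun i => π (U (slot p k0 i) (v i)))) = 0 := by
    rw [smul_comm]
    exact h4
  have h8 : p • (b • B (fun i => π (U (slot p k0 i) (v i)))) = 0 := by
    rw [← Nat.cast_smul_eq_nsmul R, hp, zero_smul]
  have h9 : IsCoprime (n : ℤ) (p : ℤ) :=
    Nat.isCoprime_iff_coprime.2 ((Nat.coprime_comm.1 ((Nat.Prime.coprime_iff_not_dvd hpp).2 h5)))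
  obtain ⟨c, d, hcd⟩ := h9
  set y := b • B (fun i => π (U (slot p k0 i) (v i)))
  have h10 : y = (c * n + d * p : ℤ) • y := by rw [hcd, one_smul]
  rw [h10, add_smul, mul_smul, mul_smul, natCast_zsmul, natCast_zsmul, h7, h8, smul_zero,
    smul_zero, add_zero]

include hpp hp hπ hU hχ h𝔭 h𝔣 hfp hE hP1 hrel hx0 in
/-- **Case II.** A power of `𝔭 𝔣` kills `M`. -/
theorem case_two [Module.Finite R M] : ∃ N : ℕ, (𝔭 * 𝔣) ^ N • (⊤ : Submodule R M) = ⊥ := by
  classical
  obtain ⟨N, hN⟩ := key_lemma (ι := Slot p k0) (M := M)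
    ((𝔭 ^ (Fintype.card κ) * 𝔣) ^ (Fintype.card (Slot p k0))) (by
      intro W B hB b hb v
      have hv : ∀ i, ∃ z : P, π (U (slot p k0 i) z) = v i := by
        intro i
        obtain ⟨y, hy⟩ := hπ (v i)
        obtain ⟨z, hz⟩ := hU (slot p k0 i) y
        exact ⟨z, by rw [hz, hy]⟩
      choose z hz using hv
      have h1 := form_killed hpp hp π U χ hχ k0 𝔭 𝔣 h𝔭 h𝔣 hfp E1 x0 hx0 hE hP1 hrel B hB z b hb
      have h2 : (fun i => π (U (slot p k0 i) (z i))) = v := funext hz
      rwa [h2] at h1)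
  have hk : 1 ≤ Fintype.card κ := Fintype.card_pos_iff.2 ⟨k0⟩
  refine ⟨Fintype.card κ * Fintype.card (Slot p k0) * N, ?_⟩
  rw [← le_bot_iff, ← hN]
  refine Submodule.smul_mono_left ?_
  rw [pow_mul, pow_mul]
  refine Ideal.pow_right_mono (Ideal.pow_right_mono ?_ _) _
  rw [mul_pow]
  exact Ideal.mul_mono_right (Ideal.pow_le_self (by omega))

end main

end TFM8
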