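import Mathlib

/-!
# Symmetric forms and nilpotency

Let `M` be a finitely generated module over a commutative ring `R`, and `𝔟` an ideal which kills all
symmetric multilinear forms of degree `D` on `M` with values in quotients of `M`. Then a power of
`𝔟` kills `M`.
-/

set_option autoImplicit false

namespace TFM8

open Finset

universe u v

variable {R : Type u} [CommRing R]

theorem mul_mem_of_prod {ι : Type*} [DecidableEq ι] (I K : Ideal R) (s : Finset ι) :
    ∀ c : R, (∀ f : ι → R, (∀ i, f i ∈ I) → c * ∏ i ∈ s, f i ∈ K) → ∀ y ∈ I ^ s.card, c * y ∈ K := by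
  induction s using Finset.induction_on with
  | empty =>
    intro c h y _
    have := h (fun _ => 0) (fun _ => I.zero_mem)
    rw [prod_empty, mul_one] at this
    exact K.mul_mem_right y this
  | insert a s ha ih =>
    intro c h y hy
    rw [card_insert_of_notMem ha, pow_succ'] at hy
    induction hy using Submodule.mul_induction_on' with
    | mem_mul_mem a0 ha0 z hz =>
      rw [← mul_assoc]
      refine ih (c * a0) (fun f hf => ?_) z hz
      have h1 := h (Function.update f a a0) (fun i => by
        by_cases hi : i = a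
        · subst hi
          rwa [Function.update_self]
        · rw [Function.update_of_ne hi]
          exact hf i)
      rw [prod_insert ha, Function.update_self, ← mul_assoc] at h1
      convert h1 using 2
      exact prod_congr rfl fun i hi => by
        rw [Function.update_of_ne (ne_of_mem_of_not_mem hi ha)]
    | add x hx y hy ihx ihy =>
      rw [mul_add]
      exact K.add_mem ihx ihy

variable {ι : Type} [Fintype ι] [DecidableEq ι]

/-- Symmetric multilinear forms. -/
def Symm {M A : Type*} [AddCommGroup M] [Module R M] [AddCommGroup A] [Module R A]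
    (B : MultilinearMap R (fun _ : ι => M) A) : Prop :=
  ∀ (σ : Equiv.Perm ι) (v : ι → M), B (v ∘ σ) = B v

theorem symm_of_swap {M A : Type*} [AddCommGroup M] [Module R M] [AddCommGroup A] [Module R A]
    (B : MultilinearMap R (fun _ : ι => M) A)
    (h : ∀ i j : ι, i ≠ j → ∀ v : ι → M, B (v ∘ Equiv.swap i j) = B v) : Symm B := by
  intro σ
  induction σ using Equiv.Perm.swap_induction_on with
  | one => intro v; rfl
  | swap_mul f x y hxy ih =>
    intro v
    rw [Equiv.Perm.coe_mul, ← Function.comp_assoc, ih, h x y hxy]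

section form

variable {M : Type v} [AddCommGroup M] [Module R M]

/-- The form `v ↦ b₀ c₁ ⋯ c_D w`, where `bᵢ vᵢ = cᵢ w`. -/
theorem exists_form (w : M) (I : Ideal R) (hI : ∀ b ∈ I, ∀ v : M, ∃ c : R, b • v = c • w)
    (b0 : R) (hb0 : b0 ∈ I) (b : ι → R) (hb : ∀ i, b i ∈ I) :
    ∃ B : MultilinearMap R (fun _ : ι => M) M, Symm B ∧
      ∀ (v : ι → M) (c : ι → R), (∀ i, b i • v i = c i • w) → B v = (b0 * ∏ i, c i) • w := by
  classical
  let T : R →ₗ[R] M := LinearMap.toSpanSingleton R M w
  have hT : ∀ x, T x = x • w := fun x => LinearMap.toSpanSingleton_apply R M w x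
  have hr : ∀ i, ∀ v : M, (LinearMap.lsmul R M (b i)) v ∈ LinearMap.range T := by
    intro i v
    obtain ⟨c, hc⟩ := hI (b i) (hb i) v
    exact ⟨c, by rw [hT, ← hc]; rfl⟩
  let φ : ι → M →ₗ[R] (R ⧸ LinearMap.ker T) := fun i =>
    (T.quotKerEquivRange.symm : LinearMap.range T →ₗ[R] (R ⧸ LinearMap.ker T)).comp
      ((LinearMap.lsmul R M (b i)).codRestrict (LinearMap.range T) (hr i))
  have hφ : ∀ (i : ι) (v : M) (c : R), b i • v = c • w →
      φ i v = (Submodule.Quotient.mk c : R ⧸ LinearMap.ker T) := by
    intro i v c hc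
    have h1 : ((LinearMap.lsmul R M (b i)).codRestrict (LinearMap.range T) (hr i)) v =
        T.quotKerEquivRange (Submodule.Quotient.mk c) := by
      apply Subtype.ext
      rw [LinearMap.codRestrict_apply, LinearMap.quotKerEquivRange_apply_mk, hT, ← hc]
      rfl
    show T.quotKerEquivRange.symm _ = _
    rw [h1, LinearEquiv.symm_apply_apply]
  let Q := R ⧸ (LinearMap.ker T : Ideal R)
  let P : MultilinearMap R (fun _ : ι => Q) Q := MultilinearMap.mkPiAlgebra R ι Q
  let S : Q →ₗ[R] M := (LinearMap.lsmul R M b0).comp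
    ((LinearMap.ker T).liftQ T le_rfl)
  let B : MultilinearMap R (fun _ : ι => M) M := S.compMultilinearMap (P.compLinearMap φ)
  have hB : ∀ (v : ι → M) (c : ι → R), (∀ i, b i • v i = c i • w) →
      B v = (b0 * ∏ i, c i) • w := by
    intro v c hc
    have h1 : (P.compLinearMap φ) v = (Ideal.Quotient.mk (LinearMap.ker T : Ideal R)) (∏ i, c i) := by
      rw [MultilinearMap.compLinearMap_apply]
      show (MultilinearMap.mkPiAlgebra R ι Q) (fun i => φ i (v i)) = _
      rw [MultilinearMap.mkPiAlgebra_apply, map_prod]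
      exact prod_congr rfl fun i _ => hφ i (v i) (c i) (hc i)
    show S ((P.compLinearMap φ) v) = _
    rw [h1]
    show b0 • ((LinearMap.ker T).liftQ T le_rfl) (Submodule.Quotient.mk (∏ i, c i)) = _
    rw [Submodule.liftQ_apply, hT, mul_smul]
  refine ⟨B, ?_, hB⟩
  apply symm_of_swap
  intro i j hij v
  choose c hc using fun i => hI (b i) (hb i)
  -- the coefficients `c l (v l)`, and after the swap
  obtain ⟨e, he⟩ := hI b0 hb0 (v j)
  rw [hB v (fun l => c l (v l)) (fun l => hc l (v l)),
    hB (v ∘ Equiv.swap i j) (fun l => c l ((v ∘ Equiv.swap i j) l)) (fun l => hc l _)]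
  have hsplit : ∀ f : ι → R, ∏ l, f l = (f i * f j) * ∏ l ∈ (univ.erase i).erase j, f l := by
    intro f
    rw [← mul_prod_erase univ f (mem_univ i),
      ← mul_prod_erase (univ.erase i) f (mem_erase.2 ⟨hij.symm, mem_univ j⟩), mul_assoc]
  rw [hsplit, hsplit]
  have hrest : ∏ l ∈ (univ.erase i).erase j, c l ((v ∘ Equiv.swap i j) l) =
      ∏ l ∈ (univ.erase i).erase j, c l (v l) := by
    refine prod_congr rfl fun l hl => ?_
    have h1 : l ≠ j := (mem_erase.1 hl).1
    have h2 : l ≠ i := (mem_erase.1 (mem_erase.1 hl).2).1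
    rw [Function.comp_apply, Equiv.swap_apply_of_ne_of_ne h2 h1]
  rw [hrest]
  simp only [Function.comp_apply, Equiv.swap_apply_left, Equiv.swap_apply_right]
  set Z := ∏ l ∈ (univ.erase i).erase j, c l (v l)
  have key : ∀ (a1 a2 : R), (b0 * (a1 * a2)) • w = (b0 * (a2 * a1)) • w := fun a1 a2 => by
    rw [mul_comm a1 a2]
  -- b0 c_i(v_i) c_j(v_j) w = e b_i b_j v_i
  have e1 : (b0 * (c i (v i) * c j (v j))) • w = (e * (b i * b j)) • v i := by
    have h1 : (b0 * (c i (v i) * c j (v j))) • w = (c i (v i) * b0) • (c j (v j) • w) := by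
      rw [smul_smul]; congr 1; ring
    rw [h1, ← hc j (v j), smul_smul, show c i (v i) * b0 * b j = (c i (v i) * b j) * b0 by ring,
      mul_smul, he, smul_smul, show c i (v i) * b j * e = (e * b j) * c i (v i) by ring, mul_smul,
      ← hc i (v i), smul_smul]
    congr 1; ring
  have e2 : (b0 * (c i (v j) * c j (v i))) • w = (e * (b i * b j)) • v i := by
    have h1 : (b0 * (c i (v j) * c j (v i))) • w = (c j (v i) * b0) • (c i (v j) • w) := by
      rw [smul_smul]; congr 1; ring
    rw [h1, ← hc i (v j), smul_smul, show c j (v i) * b0 * b i = (c j (v i) * b i) * b0 by ring,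
      mul_smul, he, smul_smul, show c j (v i) * b i * e = (e * b i) * c j (v i) by ring, mul_smul,
      ← hc j (v i), smul_smul]
    congr 1; ring
  have e3 : (b0 * (c i (v j) * c j (v i) * Z)) • w = Z • ((b0 * (c i (v j) * c j (v i))) • w) := by
    rw [smul_smul]; congr 1; ring
  have e4 : (b0 * (c i (v i) * c j (v j) * Z)) • w = Z • ((b0 * (c i (v i) * c j (v j))) • w) := by
    rw [smul_smul]; congr 1; ring
  rw [e3, e4, e1, e2]

end form

/-- **Key lemma.** If the ideal `𝔟` kills all symmetric multilinear forms indexed by `ι` on the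
finitely generated module `M` (with values in quotients of `M`), then a power of `𝔟` kills `M`. -/
theorem key_lemma {M : Type v} [AddCommGroup M] [Module R M] [Module.Finite R M] (𝔟 : Ideal R)
    (h : ∀ (W : Submodule R M) (B : MultilinearMap R (fun _ : ι => M) (M ⧸ W)), Symm B →
      ∀ b ∈ 𝔟, ∀ v, b • B v = 0) :
    ∃ N : ℕ, 𝔟 ^ N • (⊤ : Submodule R M) = ⊥ := by
  classical
  have main : ∀ s : Finset M, ∀ W : Submodule R M, W ⊔ Submodule.span R (s : Set M) = ⊤ →
      ∃ N : ℕ, 𝔟 ^ N • (⊤ : Submodule R M) ≤ W := by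
    intro s
    induction s using Finset.induction_on with
    | empty =>
      intro W hW
      rw [coe_empty, Submodule.span_empty, sup_bot_eq] at hW
      exact ⟨0, by rw [hW]; exact le_top⟩
    | insert w s hw ih =>
      intro W hW
      have h1 : (W ⊔ Submodule.span R {w}) ⊔ Submodule.span R (s : Set M) = ⊤ := by
        rw [sup_assoc, ← Submodule.span_union, ← hW, coe_insert]
        rfl
      obtain ⟨N, hN⟩ := ih _ h1
      -- in `M ⧸ W` the ideal `𝔟 ^ N` maps everything into the line of `w`
      let w' : M ⧸ W := Submodule.Quotient.mk w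
      have hI : ∀ b ∈ 𝔟 ^ N, ∀ v : M ⧸ W, ∃ c : R, b • v = c • w' := by
        intro b hb v
        obtain ⟨v, rfl⟩ := Submodule.Quotient.mk_surjective W v
        have h2 : b • v ∈ W ⊔ Submodule.span R {w} :=
          hN (Submodule.smul_mem_smul hb Submodule.mem_top)
        obtain ⟨x, hx, y, hy, hxy⟩ := Submodule.mem_sup.1 h2
        obtain ⟨c, rfl⟩ := Submodule.mem_span_singleton.1 hy
        refine ⟨c, ?_⟩
        rw [← Submodule.Quotient.mk_smul, ← Submodule.Quotient.mk_smul, ← hxy,
          Submodule.Quotient.mk_add, (Submodule.Quotient.mk_eq_zero W).2 hx, zero_add]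
      let K : Ideal R := (Submodule.span R {w'}).annihilator
      have hK : ∀ x : R, x ∈ K ↔ x • w' = 0 := by
        intro x
        rw [Submodule.mem_annihilator_span_singleton]
      have h3 : ∀ b ∈ 𝔟, ∀ y ∈ (𝔟 ^ N) ^ (Fintype.card ι + 1), b * y ∈ K := by
        intro b hb y hy
        rw [pow_succ', ← card_univ] at hy
        induction hy using Submodule.mul_induction_on' with
        | mem_mul_mem b0 hb0 z hz =>
          rw [← mul_assoc]
          refine mul_mem_of_prod (𝔟 ^ N) K univ (b * b0) (fun f hf => ?_) z hz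
          obtain ⟨B, hBs, hB⟩ := exists_form (ι := ι) w' (𝔟 ^ N) hI b0 hb0 f hf
          let B' : MultilinearMap R (fun _ : ι => M) (M ⧸ W) :=
            B.compLinearMap fun _ => W.mkQ
          have hB's : Symm B' := by
            intro σ v
            show B (fun i => W.mkQ ((v ∘ σ) i)) = B (fun i => W.mkQ (v i))
            exact hBs σ (fun i => W.mkQ (v i))
          have h4 := h W B' hB's b hb (fun _ => w)
          have h5 : B' (fun _ => w) = (b0 * ∏ i, f i) • w' :=
            hB (fun _ => W.mkQ w) f (fun i => rfl)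
          rw [h5, smul_smul] at h4
          rw [hK, ← h4, mul_assoc]
        | add x hx y hy ihx ihy =>
          rw [mul_add]
          exact K.add_mem ihx ihy
      have hle : 𝔟 ^ (1 + N * (Fintype.card ι + 1)) ≤ K := by
        rw [pow_add, pow_one, pow_mul]
        exact Ideal.mul_le.2 h3
      refine ⟨1 + N * (Fintype.card ι + 1) + N, ?_⟩
      rw [pow_add]
      refine Submodule.smul_le.2 fun r hr n _ => ?_
      induction hr using Submodule.mul_induction_on' with
      | mem_mul_mem a ha z hz =>
        obtain ⟨c, hc⟩ := hI z hz (Submodule.Quotient.mk n)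
        have h4 := (hK a).1 (hle ha)
        rw [← Submodule.Quotient.mk_eq_zero W, Submodule.Quotient.mk_smul, mul_smul, hc,
          smul_comm, h4, smul_zero]
      | add x hx y hy ihx ihy =>
        rw [add_smul]
        exact W.add_mem ihx ihy
  obtain ⟨s, hs⟩ := Module.Finite.fg_top (R := R) (M := M)
  obtain ⟨N, hN⟩ := main s ⊥ (by rw [bot_sup_eq, hs])
  exact ⟨N, le_bot_iff.1 hN⟩

end TFM8
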