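import Pool.Agent.TFM8.Key

/-!
# Symmetric forms in characteristic `p`: Frobenius and polarisation
-/

set_option autoImplicit false

namespace TFM8

open Finset

variable {R : Type*} [CommRing R] {ι : Type} [Fintype ι] [DecidableEq ι]

theorem exists_perm {T s s' : Finset ι} (hs : s ⊆ T) (hs' : s' ⊆ T) (h : s.card = s'.card) :
    ∃ σ : Equiv.Perm ι, (∀ i, i ∈ s' ↔ σ i ∈ s) ∧ (∀ i, i ∈ T ↔ σ i ∈ T) ∧ ∀ i, i ∉ T → σ i = i := by
  classical
  have h1 : Nonempty ({x // x ∈ s'} ≃ {x // x ∈ s}) :=
    Fintype.card_eq.1 (by rw [Fintype.card_coe, Fintype.card_coe, h])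
  have h2 : Nonempty ({x // x ∈ T \ s'} ≃ {x // x ∈ T \ s}) :=
    Fintype.card_eq.1 (by
      rw [Fintype.card_coe, Fintype.card_coe, card_sdiff_of_subset hs, card_sdiff_of_subset hs', h])
  obtain ⟨e1⟩ := h1
  obtain ⟨e2⟩ := h2
  let g : ι → ι := fun x => if h : x ∈ s' then (e1 ⟨x, h⟩ : ι) else
    if h' : x ∈ T \ s' then (e2 ⟨x, h'⟩ : ι) else x
  have g1 : ∀ x (h : x ∈ s'), g x = e1 ⟨x, h⟩ := fun x h => dif_pos h
  have g2 : ∀ x (h : x ∈ T \ s'), g x = e2 ⟨x, h⟩ := fun x h => by
    show (if h : x ∈ s' then (e1 ⟨x, h⟩ : ι) else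
      if h' : x ∈ T \ s' then (e2 ⟨x, h'⟩ : ι) else x) = _
    rw [dif_neg (mem_sdiff.1 h).2, dif_pos h]
  have g3 : ∀ x, x ∉ T → g x = x := fun x h => by
    show (if h : x ∈ s' then (e1 ⟨x, h⟩ : ι) else
      if h' : x ∈ T \ s' then (e2 ⟨x, h'⟩ : ι) else x) = _
    rw [dif_neg fun h' => h (hs' h'), dif_neg fun h' => h (mem_sdiff.1 h').1]
  have m1 : ∀ x, x ∈ s' → g x ∈ s := fun x h => by rw [g1 x h]; exact (e1 ⟨x, h⟩).2
  have m2 : ∀ x, x ∈ T \ s' → g x ∈ T \ s := fun x h => by rw [g2 x h]; exact (e2 ⟨x, h⟩).2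
  have tri : ∀ x, x ∈ s' ∨ x ∈ T \ s' ∨ x ∉ T := fun x => by
    by_cases h : x ∈ s'
    · exact Or.inl h
    · by_cases h' : x ∈ T
      · exact Or.inr (Or.inl (mem_sdiff.2 ⟨h', h⟩))
      · exact Or.inr (Or.inr h')
  have hinj : Function.Injective g := by
    intro x y hxy
    rcases tri x with hx | hx | hx <;> rcases tri y with hy | hy | hy
    · rw [g1 x hx, g1 y hy] at hxy
      exact congrArg Subtype.val (e1.injective (Subtype.ext hxy))
    · exact absurd (hxy ▸ m1 x hx) (mem_sdiff.1 (m2 y hy)).2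
    · exact absurd (hs (m1 x hx)) (by rw [hxy, g3 y hy]; exact hy)
    · exact absurd (hxy ▸ m1 y hy) (mem_sdiff.1 (m2 x hx)).2
    · rw [g2 x hx, g2 y hy] at hxy
      exact congrArg Subtype.val (e2.injective (Subtype.ext hxy))
    · exact absurd (mem_sdiff.1 (m2 x hx)).1 (by rw [hxy, g3 y hy]; exact hy)
    · exact absurd (hs (m1 y hy)) (by rw [← hxy, g3 x hx]; exact hx)
    · exact absurd (mem_sdiff.1 (m2 y hy)).1 (by rw [← hxy, g3 x hx]; exact hx)
    · rwa [g3 x hx, g3 y hy] at hxy
  refine ⟨Equiv.ofBijective g (Finite.injective_iff_bijective.1 hinj), ?_, ?_, fun i hi => g3 i hi⟩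
  · intro i
    show i ∈ s' ↔ g i ∈ s
    refine ⟨m1 i, fun h => ?_⟩
    rcases tri i with hx | hx | hx
    · exact hx
    · exact absurd h (mem_sdiff.1 (m2 i hx)).2
    · exact absurd (hs h) (by rw [g3 i hx]; exact hx)
  · intro i
    show i ∈ T ↔ g i ∈ T
    rcases tri i with hx | hx | hx
    · exact ⟨fun _ => hs (m1 i hx), fun _ => hs' hx⟩
    · exact ⟨fun _ => (mem_sdiff.1 (m2 i hx)).1, fun _ => (mem_sdiff.1 hx).1⟩
    · rw [g3 i hx]

section frob

variable {M A : Type*} [AddCommGroup M] [Module R M] [AddCommGroup A] [Module R A]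

theorem frob {p : ℕ} (hpp : p.Prime) (hp : (p : R) = 0)
    (B : MultilinearMap R (fun _ : ι => M) A) (hB : Symm B) (T : Finset ι) (hT : T.card = p)
    (y z : M) (v : ι → M) :
    B (T.piecewise (fun _ => y + z) v) =
      B (T.piecewise (fun _ => y) v) + B (T.piecewise (fun _ => z) v) := by
  classical
  have h1 : T.piecewise (fun _ => y + z) v =
      T.piecewise ((fun _ => y) + T.piecewise (fun _ => z) v) (T.piecewise (fun _ => z) v) := by
    funext i
    by_cases hi : i ∈ T
    · simp [piecewise, hi]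
    · simp [piecewise, hi]
  rw [h1, B.map_piecewise_add]
  have hex : ∀ j : ℕ, ∃ s : Finset ι, j ≤ p → s ⊆ T ∧ s.card = j := by
    intro j
    by_cases hj : j ≤ p
    · obtain ⟨s, hs, hs'⟩ := exists_subset_card_eq (hT ▸ hj : j ≤ T.card)
      exact ⟨s, fun _ => ⟨hs, hs'⟩⟩
    · exact ⟨∅, fun h => absurd h hj⟩
  choose rep hrep using hex
  let F : ℕ → A := fun j => B ((rep j).piecewise (fun _ => y) (T.piecewise (fun _ => z) v))
  have h2 : ∀ s ∈ T.powerset, B (s.piecewise (fun _ => y) (T.piecewise (fun _ => z) v)) =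
      F s.card := by
    intro s hs
    have hsT := mem_powerset.1 hs
    have hle : s.card ≤ p := hT ▸ card_le_card hsT
    obtain ⟨r1, r2⟩ := hrep s.card hle
    obtain ⟨σ, e1, e2, e3⟩ := exists_perm hsT r1 r2.symm
    show _ = B _
    rw [← hB σ (s.piecewise (fun _ => y) (T.piecewise (fun _ => z) v))]
    congr 1
    funext i
    show s.piecewise (fun _ => y) (T.piecewise (fun _ => z) v) (σ i) = _
    by_cases hi : i ∈ rep s.card
    · rw [piecewise_eq_of_mem _ _ _ ((e1 i).1 hi), piecewise_eq_of_mem _ _ _ hi]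
    · rw [piecewise_eq_of_notMem _ _ _ (fun h => hi ((e1 i).2 h)), piecewise_eq_of_notMem _ _ _ hi]
      by_cases hiT : i ∈ T
      · rw [piecewise_eq_of_mem _ _ _ ((e2 i).1 hiT), piecewise_eq_of_mem _ _ _ hiT]
      · rw [e3 i hiT]
  rw [sum_congr rfl h2, sum_powerset_apply_card, hT]
  obtain ⟨q, rfl⟩ := Nat.exists_eq_succ_of_ne_zero hpp.ne_zero
  rw [sum_range_succ, sum_range_succ']
  have h3 : ∑ k ∈ range q, (q + 1).choose (k + 1) • F (k + 1) = 0 := by
    refine sum_eq_zero fun k hk => ?_
    have hk' := mem_range.1 hk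
    obtain ⟨c, hc⟩ := hpp.dvd_choose_self (Nat.succ_ne_zero k) (Nat.succ_lt_succ hk')
    have h4 : ((q + 1).choose (k + 1) : R) = 0 := by
      have : (((q + 1).choose (k + 1) : ℕ) : R) = ((q.succ * c : ℕ) : R) := congrArg _ hc
      rw [this, Nat.cast_mul, hp, zero_mul]
    rw [← Nat.cast_smul_eq_nsmul R, h4, zero_smul]
  have hF0 : F 0 = B (T.piecewise (fun _ => z) v) := by
    show B _ = _
    obtain ⟨_, r2⟩ := hrep 0 (Nat.zero_le _)
    rw [card_eq_zero.1 r2, piecewise_empty]
  have hFp : F (q + 1) = B (T.piecewise (fun _ => y) v) := by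
    show B _ = _
    obtain ⟨r1, r2⟩ := hrep (q + 1) le_rfl
    have : rep (q + 1) = T := eq_of_subset_of_card_le r1 (by rw [r2, hT])
    rw [this]
    congr 1
    funext i
    by_cases hi : i ∈ T <;> simp [piecewise, hi]
  show (∑ k ∈ range q, (q + 1).choose (k + 1) • F (k + 1) + (q + 1).choose 0 • F 0) +
    (q + 1).choose (q + 1) • F (q + 1) = _
  rw [h3, zero_add, Nat.choose_zero_right, one_smul, Nat.choose_self, one_smul, hF0, hFp, add_comm]

theorem vanish {p : ℕ} (hpp : p.Prime) (hp : (p : R) = 0)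
    (B : MultilinearMap R (fun _ : ι => M) A) (hB : Symm B) (T : Finset ι) (hT : T.card = p)
    (𝔣 : Ideal R) (hf : ∀ f ∈ 𝔣, ∀ m : M, f ^ p • m = 0) (v : ι → M) :
    ∀ y ∈ 𝔣 • (⊤ : Submodule R M), B (T.piecewise (fun _ => y) v) = 0 := by
  classical
  have hne : T.Nonempty := by
    rw [← card_pos, hT]
    exact hpp.pos
  obtain ⟨i, hi⟩ := hne
  intro y hy
  induction hy using Submodule.smul_induction_on' with
  | smul f hf' m _ =>
    have h1 : T.piecewise (fun _ => f • m) v =
        T.piecewise (fun j => f • (T.piecewise (fun _ => m) v) j) (T.piecewise (fun _ => m) v) := by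
      funext j
      by_cases hj : j ∈ T <;> simp [piecewise, hj]
    rw [h1, B.map_piecewise_smul, prod_const, hT]
    have h2 : T.piecewise (fun _ => m) v =
        Function.update (T.piecewise (fun _ => m) v) i m := by
      rw [eq_comm, Function.update_eq_self_iff, piecewise_eq_of_mem _ _ _ hi]
    rw [h2, ← B.map_update_smul, hf f hf' m]
    exact B.map_coord_zero i (Function.update_self i _ _)
  | add y _ z _ hy hz =>
    rw [frob hpp hp B hB T hT, hy, hz, add_zero]

end frob

section polar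

variable {P A : Type*} [AddCommGroup P] [AddCommGroup A]

theorem polar (Z : MultilinearMap ℤ (fun _ : ι => P) A) (x : P) (a : ι → P)
    (h : ∀ s : Finset ι, Z (fun _ => x + ∑ i ∈ s, a i) = 0) :
    ∑ τ : Equiv.Perm ι, Z (fun i => a (τ i)) = 0 := by
  classical
  let b : Option ι → P := fun c => c.elim x a
  have h1 : ∀ s : Finset ι, x + ∑ i ∈ s, a i = ∑ c ∈ insertNone s, b c := by
    intro s
    rw [sum_insertNone]
    rfl
  have h2 : ∀ s : Finset ι, ∑ g ∈ Fintype.piFinset (fun _ : ι => insertNone s),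
      Z (fun i => b (g i)) = 0 := by
    intro s
    rw [← h s, h1 s]
    exact (Z.map_sum_finset (fun _ c => b c) (fun _ => insertNone s)).symm
  -- inclusion and exclusion
  have h3 : ∑ g : ι → Option ι, (∑ s ∈ univ.filter (fun s : Finset ι => ∀ i, g i ∈ insertNone s),
      (-1 : ℤ) ^ s.card) • Z (fun i => b (g i)) = 0 := by
    have h4 : ∑ s : Finset ι, (-1 : ℤ) ^ s.card •
        ∑ g ∈ Fintype.piFinset (fun _ : ι => insertNone s), Z (fun i => b (g i)) = 0 :=
      sum_eq_zero fun s _ => by rw [h2 s, smul_zero]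
    rw [← h4]
    simp only [smul_sum, sum_smul]
    rw [sum_comm' (s := univ) (t := fun g : ι → Option ι =>
      univ.filter (fun s : Finset ι => ∀ i, g i ∈ insertNone s)) (t' := univ)
      (s' := fun s => Fintype.piFinset (fun _ : ι => insertNone s))]
    intro g s
    simp only [mem_univ, true_and, mem_filter, Fintype.mem_piFinset, and_true]
  have h5 : ∀ g : ι → Option ι, (∃ j, ∀ i, g i ≠ some j) →
      ∑ s ∈ univ.filter (fun s : Finset ι => ∀ i, g i ∈ insertNone s), (-1 : ℤ) ^ s.card = 0 := by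
    rintro g ⟨j, hj⟩
    refine sum_involution (fun s _ => if j ∈ s then s.erase j else insert j s) ?_ ?_ ?_ ?_
    · intro s _
      by_cases hs : j ∈ s
      · rw [if_pos hs]
        obtain ⟨c, hc⟩ := Nat.exists_eq_succ_of_ne_zero (card_pos.2 ⟨j, hs⟩).ne'
        rw [card_erase_of_mem hs, hc, Nat.succ_sub_one, pow_succ]
        ring
      · rw [if_neg hs, card_insert_of_notMem hs, pow_succ]
        ring
    · intro s _ _
      by_cases hs : j ∈ s
      · rw [if_pos hs]
        exact fun h => notMem_erase j s (h.symm ▸ hs)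
      · rw [if_neg hs]
        exact fun h => hs (h ▸ mem_insert_self j s)
    · intro s hs
      rw [mem_filter] at hs ⊢
      refine ⟨mem_univ _, fun i => ?_⟩
      have h6 := hs.2 i
      cases hgi : g i with
      | none => exact none_mem_insertNone
      | some l =>
        rw [hgi, some_mem_insertNone] at h6
        have hlj : l ≠ j := fun h => hj i (by rw [hgi, h])
        rw [some_mem_insertNone]
        by_cases hs' : j ∈ s
        · rw [if_pos hs']
          exact mem_erase.2 ⟨hlj, h6⟩
        · rw [if_neg hs']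
          exact mem_insert_of_mem h6
    · intro s _
      by_cases hs : j ∈ s
      · simp [hs]
      · simp [hs]
  have h6 : ∀ τ : Equiv.Perm ι,
      ∑ s ∈ univ.filter (fun s : Finset ι => ∀ i, (some (τ i) : Option ι) ∈ insertNone s),
        (-1 : ℤ) ^ s.card = (-1) ^ (Fintype.card ι) := by
    intro τ
    have : univ.filter (fun s : Finset ι => ∀ i, (some (τ i) : Option ι) ∈ insertNone s) =
        {univ} := by
      ext s
      simp only [mem_filter, mem_univ, true_and, some_mem_insertNone, mem_singleton]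
      constructor
      · intro h
        ext i
        simp only [mem_univ, iff_true]
        have := h (τ.symm i)
        rwa [Equiv.apply_symm_apply] at this
      · rintro rfl i
        exact mem_univ _
    rw [this, sum_singleton, card_univ]
  -- only the functions `some ∘ τ` remain
  have h7 : ∑ τ : Equiv.Perm ι, ((-1 : ℤ) ^ (Fintype.card ι)) • Z (fun i => a (τ i)) = 0 := by
    rw [← h3]
    rw [← sum_subset (subset_univ (univ.image fun (τ : Equiv.Perm ι) (i : ι) =>
      (some (τ i) : Option ι)))]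
    · rw [sum_image]
      · refine sum_congr rfl fun τ _ => ?_
        rw [h6 τ]
        rfl
      · intro τ _ τ' _ h
        ext i
        exact Option.some.inj (congrFun h i)
    · intro g _ hg
      rw [h5 g, zero_smul]
      by_contra hcon
      push Not at hcon
      apply hg
      -- `g` is a bijection onto `some`
      choose t ht using hcon
      have htinj : Function.Injective t := fun j j' h => by
        have := ht j
        rw [h, ht j'] at this
        exact (Option.some.inj this).symm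
      let τ := Equiv.ofBijective t (Finite.injective_iff_bijective.1 htinj)
      refine mem_image.2 ⟨τ.symm, mem_univ _, ?_⟩
      funext i
      have := ht (τ.symm i)
      rw [show t (τ.symm i) = i from τ.apply_symm_apply i] at this
      exact this.symm
  rw [← smul_sum] at h7
  have h8 : ((-1 : ℤ) ^ (Fintype.card ι)) • ((-1 : ℤ) ^ (Fintype.card ι)) •
      ∑ τ : Equiv.Perm ι, Z (fun i => a (τ i)) = 0 := by rw [h7, smul_zero]
  rwa [smul_smul, ← mul_pow, neg_one_mul, neg_neg, one_pow, one_smul] at h8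

end polar

end TFM8
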